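import Pool.Agent.K3h8.GG.Stm2

/-!
# Ideals of relations between permutations: signed words

Adapted from `Pool.Agent.K3h79.GG.COMB`.
-/

set_option autoImplicit false
set_option linter.all false

open Equiv (Perm swap)

noncomputable section

namespace Pool.Agent.K3h90.GG

open Pool.Agent.K3h8.GG

/-- The operator of a linear combination of permutations. -/
def opA (A : Type) (n : ℕ) (u : Perm (Fin n) → ℚ) : Module.End ℚ ((Fin n → A) → ℚ) :=
  ∑ σ, u σ • actA A n σ

theorem opA_apply {A : Type} {n : ℕ} (u : Perm (Fin n) → ℚ) (f : (Fin n → A) → ℚ) :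
    opA A n u f = ∑ σ, u σ • actA A n σ f := by
  simp only [opA, LinearMap.sum_apply, LinearMap.smul_apply]

theorem opA_apply' {A : Type} {n : ℕ} (u : Perm (Fin n) → ℚ) (f : (Fin n → A) → ℚ)
    (w : Fin n → A) : opA A n u f w = ∑ σ, u σ * f (w ∘ σ) := by
  rw [opA_apply, Finset.sum_apply]
  rfl

theorem act_opA {A : Type} {n : ℕ} (g : Perm (Fin n)) (u : Perm (Fin n) → ℚ)
    (f : (Fin n → A) → ℚ) :
    actA A n g (opA A n u f) = opA A n (fun s => u (g⁻¹ * s)) f := by
  rw [opA_apply, opA_apply, map_sum]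
  refine Fintype.sum_equiv (Equiv.mulLeft g) _ _ (fun σ => ?_)
  rw [map_smul, Equiv.coe_mulLeft, inv_mul_cancel_left, map_mul]
  rfl

theorem mem_Ker {p n : ℕ} {u : Perm (Fin n) → ℚ} :
    u ∈ Ker p n ↔ ∀ k, ∀ f ∈ FF p k n, opA (Fin (p + 1) ⊕ Fin k) n u f = 0 := by
  simp only [opA_apply]
  exact Iff.rfl

theorem act_FF {p k n : ℕ} (σ : Perm (Fin n)) {f : (Fin n → Fin (p + 1) ⊕ Fin k) → ℚ}
    (hf : f ∈ FF p k n) : actA (Fin (p + 1) ⊕ Fin k) n σ f ∈ FF p k n := by
  refine ⟨fun π w => ?_, fun w h j => ?_⟩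
  · exact hf.1 π (w ∘ σ)
  · obtain ⟨i, hi, hu⟩ := hf.2 (w ∘ σ) h j
    refine ⟨σ i, hi, fun i' hi' => ?_⟩
    have h1 := hu (σ.symm i') (by
      show w (σ (σ.symm i')) = _
      rw [σ.apply_symm_apply]
      exact hi')
    rw [← h1, σ.apply_symm_apply]

theorem op_FF {p k n : ℕ} (u : Perm (Fin n) → ℚ) {f : (Fin n → Fin (p + 1) ⊕ Fin k) → ℚ}
    (hf : f ∈ FF p k n) : opA (Fin (p + 1) ⊕ Fin k) n u f ∈ FF p k n := by
  rw [opA_apply]
  exact Submodule.sum_mem _ fun σ _ => Submodule.smul_mem _ _ (act_FF σ hf)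

theorem swap_up {n : ℕ} (τ : Perm (Fin n)) (i : Fin n) :
    swap 0 i.succ * up τ = up τ * swap 0 (τ⁻¹ i).succ := by
  have h := Equiv.mul_swap_eq_swap_mul (up τ) 0 (τ⁻¹ i).succ
  rw [h, up_zero, up_succ, show τ (τ⁻¹ i) = i from τ.apply_symm_apply i]

theorem core (hC : S_COS2) {p N : ℕ} (I : ∀ n, Submodule ℚ (Perm (Fin n) → ℚ))
    (hR : ∀ n, ∀ u ∈ I n, ∀ g, (fun σ => u (σ * g)) ∈ I n)
    (hP : ∀ n, ∀ u ∈ I (n + 1), PTr p u ∈ I n)
    (hmin : I N ≤ Ker p N) (u : Perm (Fin (N + 1)) → ℚ) (hu : u ∈ I (N + 1)) (k : ℕ)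
    (f : (Fin (N + 1) → Fin (p + 1) ⊕ Fin k) → ℚ) (hf : f ∈ FF p k (N + 1)) :
    ∑ i : Fin N, actA (Fin (p + 1) ⊕ Fin k) (N + 1) (swap 0 i.succ)
      (opA (Fin (p + 1) ⊕ Fin k) (N + 1) u f) =
      (-(p : ℚ)) • opA (Fin (p + 1) ⊕ Fin k) (N + 1) u f := by
  have hv : (fun σ => (p : ℚ) * u σ + ∑ i : Fin N, u (swap 0 i.succ * σ)) ∈ Ker p (N + 1) := by
    refine (hC p N _).2 fun g => ?_
    have h1 : (fun τ : Perm (Fin N) => (p : ℚ) * u (up τ * g) +
        ∑ i : Fin N, u (swap 0 i.succ * (up τ * g))) = PTr p (fun s => u (s * g)) := by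
      funext τ
      simp only [PTr]
      congr 1
      refine Fintype.sum_equiv (τ⁻¹ : Perm (Fin N)) _ _ (fun i => ?_)
      rw [← mul_assoc, swap_up]
    rw [h1]
    exact hmin (hP N _ (hR (N + 1) u hu g))
  have h2 := mem_Ker.1 hv k f hf
  rw [opA_apply] at h2
  simp only [add_smul, Finset.sum_add_distrib, Finset.sum_smul, mul_smul] at h2
  rw [← Finset.smul_sum, ← opA_apply, Finset.sum_comm] at h2
  have h3 : ∀ i : Fin N, ∑ σ, u (swap 0 i.succ * σ) • actA (Fin (p + 1) ⊕ Fin k) (N + 1) σ f =
      actA (Fin (p + 1) ⊕ Fin k) (N + 1) (swap 0 i.succ)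
        (opA (Fin (p + 1) ⊕ Fin k) (N + 1) u f) := by
    intro i
    rw [act_opA, opA_apply, Equiv.swap_inv]
  simp only [h3] at h2
  rw [neg_smul, eq_neg_iff_add_eq_zero]
  exact (add_comm _ _).trans h2

/-- replacement of an even letter by a label -/
def rep {p k n : ℕ} (a : Fin (p + 1)) (j : Fin k) (f : (Fin n → Fin (p + 1) ⊕ Fin k) → ℚ)
    (w : Fin n → Fin (p + 1) ⊕ Fin k) : ℚ :=
  ∑ i, if w i = Sum.inl a then f (Function.update w i (Sum.inr j)) else 0

theorem rep_op {p k n : ℕ} (a : Fin (p + 1)) (j : Fin k) (u : Perm (Fin n) → ℚ)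
    (f : (Fin n → Fin (p + 1) ⊕ Fin k) → ℚ) (w : Fin n → Fin (p + 1) ⊕ Fin k) :
    rep a j (opA _ n u f) w = ∑ σ, u σ * rep a j f (w ∘ σ) := by
  unfold rep
  simp only [opA_apply']
  have h1 : ∀ i : Fin n, (if w i = Sum.inl a then
      ∑ σ : Perm (Fin n), u σ * f (Function.update w i (Sum.inr j) ∘ σ) else 0) =
      ∑ σ : Perm (Fin n), if w i = Sum.inl a then
        u σ * f (Function.update w i (Sum.inr j) ∘ σ) else 0 := by
    intro i
    split_ifs <;> simp
  simp only [h1]
  rw [Finset.sum_comm]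
  refine Finset.sum_congr rfl fun σ _ => ?_
  rw [Finset.mul_sum]
  refine (Fintype.sum_equiv σ _ _ (fun i => ?_)).symm
  have h : Function.update w (σ i) (Sum.inr j) ∘ σ = Function.update (w ∘ σ) i (Sum.inr j) := by
    funext k
    by_cases h : k = i
    · subst h
      simp
    · rw [Function.comp_apply, Function.update_of_ne (fun e => h (σ.injective e)),
        Function.update_of_ne h]
      rfl
  rw [h, mul_ite, mul_zero]
  rfl

/-- extension of a permutation by a fixed point -/
def hat {k : ℕ} (j : Fin (k + 1)) (π : Perm (Fin k)) : Perm (Fin (k + 1)) :=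
  π.extendDomain (finSuccAboveEquiv j)

theorem hat_sign {k : ℕ} (j : Fin (k + 1)) (π : Perm (Fin k)) :
    Equiv.Perm.sign (hat j π) = Equiv.Perm.sign π := Equiv.Perm.sign_extendDomain _ _

theorem hat_succAbove {k : ℕ} (j : Fin (k + 1)) (π : Perm (Fin k)) (i : Fin k) :
    hat j π (j.succAbove i) = j.succAbove (π i) := by
  have := Equiv.Perm.extendDomain_apply_image π (finSuccAboveEquiv j) i
  exact this

theorem hat_self {k : ℕ} (j : Fin (k + 1)) (π : Perm (Fin k)) : hat j π j = j := by
  unfold hat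
  rw [Equiv.Perm.extendDomain_apply_not_subtype]
  simp

theorem rep_FF {p k n : ℕ} (a : Fin (p + 1)) (j : Fin (k + 1))
    {f : (Fin n → Fin (p + 1) ⊕ Fin (k + 1)) → ℚ} (hf : f ∈ FF p (k + 1) n) :
    (fun w : Fin n → Fin (p + 1) ⊕ Fin k => rep a j f (Sum.map id j.succAbove ∘ w)) ∈
      FF p k n := by
  refine ⟨fun π w => ?_, fun w hw l => ?_⟩
  · unfold rep
    rw [Finset.mul_sum]
    refine Finset.sum_congr rfl fun i _ => ?_
    have h1 : (Sum.map id j.succAbove ∘ (Sum.map id π ∘ w)) i = Sum.inl a ↔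
        (Sum.map id j.succAbove ∘ w) i = Sum.inl a := by
      simp only [Function.comp_apply]
      rcases w i with x | x <;> simp
    have h2 : Function.update (Sum.map id j.succAbove ∘ (Sum.map id π ∘ w)) i (Sum.inr j) =
        Sum.map id (hat j π) ∘ Function.update (Sum.map id j.succAbove ∘ w) i (Sum.inr j) := by
      funext i'
      by_cases h : i' = i
      · subst h
        simp [hat_self]
      · rw [Function.update_of_ne h, Function.comp_apply, Function.comp_apply,
          Function.comp_apply, Function.update_of_ne h, Function.comp_apply]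
        rcases w i' with x | x
        · simp
        · simp [hat_succAbove]
    by_cases h3 : (Sum.map id j.succAbove ∘ w) i = Sum.inl a
    · rw [if_pos (h1.2 h3), if_pos h3, h2, hf.1, hat_sign]
    · rw [if_neg (fun h => h3 (h1.1 h)), if_neg h3, mul_zero]
  · unfold rep at hw
    obtain ⟨i, -, hi⟩ := Finset.exists_ne_zero_of_sum_ne_zero hw
    split_ifs at hi with h1
    · obtain ⟨i', hi', hu⟩ := hf.2 _ hi (j.succAbove l)
      have hne : i' ≠ i := by
        rintro rfl
        simp only [Function.update_self] at hi'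
        exact (Fin.succAbove_ne j l) (Sum.inr_injective hi').symm
      have hlab : ∀ m : Fin n, (Sum.map id j.succAbove ∘ w) m = Sum.inr (j.succAbove l) ↔
          w m = Sum.inr l := by
        intro m
        simp only [Function.comp_apply]
        rcases w m with x | x
        · simp
        · simp
      refine ⟨i', ?_, fun i'' hi'' => ?_⟩
      · rw [Function.update_of_ne hne] at hi'
        exact (hlab i').1 hi'
      · apply hu
        have h2 := (hlab i'').2 hi''
        have h3 : i'' ≠ i := by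
          rintro rfl
          rw [h1] at h2
          cases h2
        show Function.update (Sum.map id j.succAbove ∘ w) i (Sum.inr j) i'' = _
        rw [Function.update_of_ne h3]
        exact h2
    · exact absurd rfl hi

theorem t_COMB2 (h1 : S_COS2) (h2 : S_K0) (h3 : S_COMB) : S_COMB2 := by
  intro p I h0 hL hR hP hex
  classical
  refine h3 p I h0 hL hR hP ?_
  obtain ⟨n, hn, hmin⟩ : ∃ n, (¬ I n ≤ Ker p n) ∧ ∀ m < n, ¬ ¬ I m ≤ Ker p m :=
    ⟨Nat.find hex, Nat.find_spec hex, fun m hm => Nat.find_min hex hm⟩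
  cases n with
  | zero =>
    rw [h0] at hn
    exact absurd bot_le hn
  | succ N =>
    have hmin' : I N ≤ Ker p N := not_not.1 (hmin N (Nat.lt_succ_self N))
    have hexk : ∃ k, ∃ u ∈ I (N + 1), ∃ f ∈ FF p k (N + 1),
        opA (Fin (p + 1) ⊕ Fin k) (N + 1) u f ≠ 0 := by
      rw [SetLike.not_le_iff_exists] at hn
      obtain ⟨u, hu, hu'⟩ := hn
      rw [mem_Ker] at hu'
      push Not at hu'
      obtain ⟨k, f, hf, hne⟩ := hu'
      exact ⟨k, u, hu, f, hf, hne⟩
    obtain ⟨k, hk, hkmin⟩ : ∃ k, (∃ u ∈ I (N + 1), ∃ f ∈ FF p k (N + 1),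
        opA (Fin (p + 1) ⊕ Fin k) (N + 1) u f ≠ 0) ∧ ∀ m < k, ¬ ∃ u ∈ I (N + 1),
        ∃ f ∈ FF p m (N + 1), opA (Fin (p + 1) ⊕ Fin m) (N + 1) u f ≠ 0 :=
      ⟨Nat.find hexk, Nat.find_spec hexk, fun m hm => Nat.find_min hexk hm⟩
    obtain ⟨u, hu, f, hf, hne⟩ := hk
    set W : Submodule ℚ ((Fin (N + 1) → Fin (p + 1) ⊕ Fin k) → ℚ) :=
      Submodule.span ℚ {x | ∃ u ∈ I (N + 1), ∃ f ∈ FF p k (N + 1),
        opA (Fin (p + 1) ⊕ Fin k) (N + 1) u f = x} with hW
    have hmem : ∀ u ∈ I (N + 1), ∀ f ∈ FF p k (N + 1),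
        opA (Fin (p + 1) ⊕ Fin k) (N + 1) u f ∈ W := fun u hu f hf =>
      Submodule.subset_span ⟨u, hu, f, hf, rfl⟩
    have hk0 : k = 0 := by
      refine h2 p k N W ?_ ?_ ?_ ?_ ?_
      · rw [hW, Submodule.span_le]
        rintro _ ⟨u, hu, f, hf, rfl⟩
        exact op_FF u hf
      · intro h
        apply hne
        have := hmem u hu f hf
        rw [h] at this
        exact (Submodule.mem_bot ℚ).1 this
      · intro σ x hx
        have h4 : W ≤ W.comap (actA (Fin (p + 1) ⊕ Fin k) (N + 1) σ) := by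
          conv_lhs => rw [hW]
          rw [Submodule.span_le]
          rintro _ ⟨u, hu, f, hf, rfl⟩
          show actA (Fin (p + 1) ⊕ Fin k) (N + 1) σ _ ∈ W
          rw [act_opA]
          exact hmem _ (hL _ u hu _) f hf
        exact h4 hx
      · intro a j x hx w hw
        have hk1 : k ≠ 0 := by
          rintro rfl
          exact j.elim0
        obtain ⟨k', rfl⟩ := Nat.exists_eq_succ_of_ne_zero hk1
        obtain ⟨w', hw'⟩ : ∃ w' : Fin (N + 1) → Fin (p + 1) ⊕ Fin k',
            Sum.map id j.succAbove ∘ w' = w := by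
          have h4 : ∀ i, ∃ y : Fin (p + 1) ⊕ Fin k', Sum.map id j.succAbove y = w i := by
            intro i
            rcases hwi : w i with x | x
            · exact ⟨Sum.inl x, rfl⟩
            · have h5 : x ≠ j := by
                rintro rfl
                exact hw i hwi
              obtain ⟨y, hy⟩ := Fin.exists_succAbove_eq h5
              exact ⟨Sum.inr y, by rw [Sum.map_inr, hy]⟩
          choose w' hw' using h4
          exact ⟨w', funext hw'⟩
        refine Submodule.span_induction (p := fun x _ => rep a j x w = 0) ?_ ?_ ?_ ?_ hx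
        · rintro _ ⟨u, hu, f, hf, rfl⟩
          rw [rep_op]
          have h4 := hkmin k' (Nat.lt_succ_self k')
          push Not at h4
          have h5 := congrFun (h4 u hu _ (rep_FF a j hf)) w'
          rw [opA_apply'] at h5
          rw [← hw']
          exact h5
        · unfold rep
          simp
        · intro x y _ _ hx hy
          unfold rep at hx hy ⊢
          have h4 : ∀ i, (if w i = Sum.inl a then (x + y) (Function.update w i (Sum.inr j)) else 0)
              = (if w i = Sum.inl a then x (Function.update w i (Sum.inr j)) else 0) +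
                (if w i = Sum.inl a then y (Function.update w i (Sum.inr j)) else 0) := by
            intro i
            split_ifs <;> simp
          simp only [h4]
          rw [Finset.sum_add_distrib, hx, hy, add_zero]
        · intro c x _ hx
          unfold rep at hx ⊢
          have h4 : ∀ i, (if w i = Sum.inl a then (c • x) (Function.update w i (Sum.inr j)) else 0)
              = c * (if w i = Sum.inl a then x (Function.update w i (Sum.inr j)) else 0) := by
            intro i
            split_ifs <;> simp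
          simp only [h4]
          rw [← Finset.mul_sum, hx, mul_zero]
      · intro x hx
        have h4 : W ≤ LinearMap.ker (∑ i : Fin N, actA (Fin (p + 1) ⊕ Fin k) (N + 1)
            (swap 0 i.succ) + (p : ℚ) • LinearMap.id) := by
          rw [hW, Submodule.span_le]
          rintro _ ⟨u, hu, f, hf, rfl⟩
          have h5 := core h1 I hR hP hmin' u hu k f hf
          show _ = _
          simp only [LinearMap.add_apply, LinearMap.sum_apply, LinearMap.smul_apply,
            LinearMap.id_apply]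
          rw [h5, neg_smul, neg_add_cancel]
        have h5 := h4 hx
        rw [LinearMap.mem_ker] at h5
        simp only [LinearMap.add_apply, LinearMap.sum_apply, LinearMap.smul_apply,
          LinearMap.id_apply] at h5
        rw [neg_smul, eq_neg_iff_add_eq_zero]
        exact h5
    subst hk0
    refine ⟨N + 1, u, hu, ?_⟩
    intro h4
    apply hne
    funext w
    obtain ⟨w', rfl⟩ : ∃ w' : Fin (N + 1) → Fin (p + 1), Sum.inl ∘ w' = w := by
      have h5 : ∀ i, ∃ y : Fin (p + 1), Sum.inl y = w i := by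
        intro i
        rcases hwi : w i with x | x
        · exact ⟨x, rfl⟩
        · exact x.elim0
      choose w' hw' using h5
      exact ⟨w', funext hw'⟩
    rw [opA_apply']
    have h5 := congrFun (congrArg (fun A => A (fun v : Fin (N + 1) → Fin (p + 1) =>
      f (Sum.inl ∘ v))) h4) w'
    simp only [op, LinearMap.sum_apply, LinearMap.smul_apply, Finset.sum_apply, Pi.smul_apply,
      LinearMap.zero_apply, Pi.zero_apply, smul_eq_mul] at h5
    exact h5

end Pool.Agent.K3h90.GG
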